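import Pool.Agent.Helper68K9.TS.Main

set_option autoImplicit false

/-!
# 3SUM: the cells of the instances, all `W`
-/

namespace Pool.Agent.Helper68K9.TC

open Finset Pool.Agent.Helper62K9.TW Pool.Agent.Helper68K9.TS

/-- the cells of the first kind -/
def cA (W m : ℕ) {B : ℕ} (hW : 6 * m + B ≤ W) (i : Fin m) : Cells W :=
  ⟨(m : ℤ) + (i : ℕ), by rw [mem_Icc]; omega⟩

/-- the cells of the second kind -/
def cB (W m t : ℕ) {B : ℕ} (hW : 6 * m + B ≤ W) (ht : t < B) (i : Fin m) : Cells W :=
  ⟨5 * (m : ℤ) - 1 + t - (i : ℕ), by rw [mem_Icc]; omega⟩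

/-- the cell of the third kind -/
def cC (W m t : ℕ) {B : ℕ} (hW : 6 * m + B ≤ W) (ht : t < B) : Cells W :=
  ⟨-(6 * (m : ℤ) - 1 + t), by rw [mem_Icc]; omega⟩

/-- the two cells of the pair `i` are near to each other -/
def Near {W m t B : ℕ} (hW : 6 * m + B ≤ W) (ht : t < B) (pos : Cells W → ℕ) (w : ℕ) (i : Fin m) : Prop :=
  pos (cA W m hW i) < pos (cB W m t hW ht i) + 2 * w ∧
    pos (cB W m t hW ht i) < pos (cA W m hW i) + 2 * w

open Classical in
/-- few values of `t` have many near pairs -/
theorem few_bad {W m B : ℕ} (hm : 0 < m) (hW : 6 * m + B ≤ W) (pos : Cells W → ℕ)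
    (hpos : Function.Injective pos) (w : ℕ) :
    (univ.filter fun t : Fin B =>
      m / 2 < (univ.filter fun i : Fin m => Near hW t.2 pos w i).card).card ≤ 8 * w := by
  set bad := univ.filter fun t : Fin B =>
      m / 2 < (univ.filter fun i : Fin m => Near hW t.2 pos w i).card with hbad
  have h1 : ∀ i : Fin m, (univ.filter fun t : Fin B => Near hW t.2 pos w i).card ≤ 4 * w := by
    intro i
    set q := pos (cA W m hW i) with hq
    have hinj : Function.Injective fun t : Fin B => pos (cB W m t hW t.2 i) := by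
      intro t t' h
      have h2 := hpos h
      have h3 := congrArg (fun e : Cells W => (e : ℤ)) h2
      simp only [cB] at h3
      exact Fin.ext (by omega)
    have h2 : ((univ.filter fun t : Fin B => Near hW t.2 pos w i).image
        fun t : Fin B => pos (cB W m t hW t.2 i)) ⊆ Ico (q + 1 - 2 * w) (q + 2 * w) := by
      intro j hj
      obtain ⟨t, ht, rfl⟩ := mem_image.1 hj
      obtain ⟨h3, h4⟩ := (mem_filter.1 ht).2
      rw [mem_Ico]
      omega
    rw [← card_image_of_injective _ hinj]
    refine (card_le_card h2).trans ?_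
    rw [Nat.card_Ico]
    omega
  have h2 : bad.card * (m / 2 + 1) ≤ m * (4 * w) := by
    calc bad.card * (m / 2 + 1) = ∑ _t ∈ bad, (m / 2 + 1) := by rw [sum_const, smul_eq_mul]
      _ ≤ ∑ t ∈ bad, (univ.filter fun i : Fin m => Near hW t.2 pos w i).card :=
          sum_le_sum fun t ht => (mem_filter.1 ht).2
      _ ≤ ∑ t : Fin B, (univ.filter fun i : Fin m => Near hW t.2 pos w i).card :=
          sum_le_sum_of_subset (subset_univ _)
      _ = ∑ i : Fin m, (univ.filter fun t : Fin B => Near hW t.2 pos w i).card := by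
          simp only [card_filter]
          exact sum_comm
      _ ≤ ∑ _i : Fin m, 4 * w := sum_le_sum fun i _ => h1 i
      _ = m * (4 * w) := by rw [sum_const, card_univ, Fintype.card_fin, smul_eq_mul]
  have h3 : m ≤ 2 * (m / 2 + 1) := by omega
  have h4 : bad.card * m ≤ (8 * w) * m := by
    calc bad.card * m ≤ bad.card * (2 * (m / 2 + 1)) := Nat.mul_le_mul_left _ h3
      _ = 2 * (bad.card * (m / 2 + 1)) := by ring
      _ ≤ 2 * (m * (4 * w)) := Nat.mul_le_mul_left _ h2
      _ = (8 * w) * m := by ring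
  exact Nat.le_of_mul_le_mul_right h4 hm

end Pool.Agent.Helper68K9.TC
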