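import Pool.Agent.Helper68K9.TC.Cell
import Pool.Agent.Helper68K9.TB.One

set_option autoImplicit false

/-!
# 3SUM: the instances, all `W`
-/

namespace Pool.Agent.Helper68K9.TC

open Finset Pool.Agent.Helper62K9.TW Pool.Agent.Helper68K9.TS Pool.Agent.Helper68K9.TB

/-- disjoint pairs have no solutions -/
theorem inp2_no {W m t : ℕ} (hm : 0 < m) (x y : Fin m → Bool)
    (hxy : ∀ i, x i = true → y i = true → False) : ¬ HasSol (inp2 W m t x y) := by
  rintro ⟨a, b, c, hab, hac, hbc, ha, hb, hc, hsum⟩
  rw [inp2_iff] at ha hb hc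
  have hab' : (a : ℤ) ≠ b := fun h => hab (Subtype.ext h)
  have hac' : (a : ℤ) ≠ c := fun h => hac (Subtype.ext h)
  have hbc' : (b : ℤ) ≠ c := fun h => hbc (Subtype.ext h)
  have key : ∀ i j : Fin m, ((i : ℕ) : ℤ) = (j : ℕ) → x i = true → y j = true → False := by
    intro i j hij h1 h2
    have : i = j := Fin.ext (by exact_mod_cast hij)
    rw [← this] at h2
    exact hxy i h1 h2
  rcases ha with ha | ⟨i, ha, hi⟩ | ⟨i, ha, hi⟩ <;>
  rcases hb with hb | ⟨j, hb, hj⟩ | ⟨j, hb, hj⟩ <;>
  rcases hc with hc | ⟨l, hc, hl⟩ | ⟨l, hc, hl⟩ <;>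
  first
  | omega
  | exact key j l (by omega) hj hl
  | exact key l j (by omega) hl hj
  | exact key i l (by omega) hi hl
  | exact key l i (by omega) hl hi
  | exact key i j (by omega) hi hj
  | exact key j i (by omega) hj hi

/-- a common element gives a solution -/
theorem inp2_yes {W m t B : ℕ} (hW : 6 * m + B ≤ W) (ht : t < B) (x y : Fin m → Bool) (i : Fin m)
    (hx : x i = true) (hy : y i = true) : HasSol (inp2 W m t x y) := by
  refine ⟨cA W m hW i, cB W m t hW ht i, cC W m t hW ht, ?_, ?_, ?_, ?_, ?_, ?_, ?_⟩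
  · intro h
    have := congrArg (fun e : Cells W => (e : ℤ)) h
    simp only [cA, cB] at this
    omega
  · intro h
    have := congrArg (fun e : Cells W => (e : ℤ)) h
    simp only [cA, cC] at this
    omega
  · intro h
    have := congrArg (fun e : Cells W => (e : ℤ)) h
    simp only [cB, cC] at this
    omega
  · rw [inp2_iff]
    exact Or.inr (Or.inl ⟨i, rfl, hx⟩)
  · rw [inp2_iff]
    exact Or.inr (Or.inr ⟨i, rfl, hy⟩)
  · rw [inp2_iff]
    exact Or.inl rfl
  · simp only [cA, cB, cC]
    ring

theorem size2_le {W m t B : ℕ} (hW : 6 * m + B ≤ W) (ht : t < B) (x y : Fin m → Bool) :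
    size (inp2 W m t x y) ≤ 2 * m + 1 := by
  classical
  have hsub : (univ.filter fun a => inp2 W m t x y a = true) ⊆
      (univ.image (cA W m hW) ∪ univ.image (cB W m t hW ht)) ∪ {cC W m t hW ht} := by
    intro e he
    have hσ := (mem_filter.1 he).2
    rw [inp2_iff] at hσ
    rw [mem_union, mem_union, mem_image, mem_image, mem_singleton]
    rcases hσ with h1 | ⟨i, h1, -⟩ | ⟨i, h1, -⟩
    · exact Or.inr (Subtype.ext h1)
    · exact Or.inl (Or.inl ⟨i, mem_univ _, Subtype.ext h1.symm⟩)
    · exact Or.inl (Or.inr ⟨i, mem_univ _, Subtype.ext h1.symm⟩)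
  refine (card_le_card hsub).trans ((card_union_le _ _).trans ?_)
  have h1 := card_union_le (univ.image (cA W m hW)) (univ.image (cB W m t hW ht))
  have h2 : (univ.image (cA W m hW)).card ≤ m := card_image_le.trans (by simp)
  have h3 : (univ.image (cB W m t hW ht)).card ≤ m := card_image_le.trans (by simp)
  rw [card_singleton]
  omega

/-- mixtures of instances -/
theorem inp2_mix {W m t B : ℕ} (hW : 6 * m + B ≤ W) (ht : t < B) (x y x' y' : Fin m → Bool)
    (S : Cells W → Bool) (e : Cells W) :
    inp2 W m t (mix (fun i => S (cA W m hW i)) x x') (mix (fun i => S (cB W m t hW ht i)) y y') e =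
      if S e then inp2 W m t x y e else inp2 W m t x' y' e := by
  have hA : ∀ i : Fin m, (e : ℤ) = m + (i : ℕ) → S (cA W m hW i) = S e := by
    intro i h
    congr 1
    exact Subtype.ext h.symm
  have hB : ∀ i : Fin m, (e : ℤ) = 5 * m - 1 + t - (i : ℕ) → S (cB W m t hW ht i) = S e := by
    intro i h
    congr 1
    exact Subtype.ext h.symm
  by_cases hS : S e = true
  · rw [if_pos hS, Bool.eq_iff_iff, inp2_iff, inp2_iff]
    unfold Mem2
    refine or_congr Iff.rfl (or_congr ?_ ?_)
    · refine exists_congr fun i => and_congr_right fun h => ?_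
      simp [mix, hA i h, hS]
    · refine exists_congr fun i => and_congr_right fun h => ?_
      simp [mix, hB i h, hS]
  · rw [if_neg hS, Bool.eq_iff_iff, inp2_iff, inp2_iff]
    unfold Mem2
    refine or_congr Iff.rfl (or_congr ?_ ?_)
    · refine exists_congr fun i => and_congr_right fun h => ?_
      simp [mix, hA i h, hS]
    · refine exists_congr fun i => and_congr_right fun h => ?_
      simp [mix, hB i h, hS]

end Pool.Agent.Helper68K9.TC
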