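import Pool.Agent.Helper68K9.TC.One

set_option autoImplicit false

/-!
# 3SUM: one nondeterministic program without error on the sets with a solution, one value of `t`
-/

namespace Pool.Agent.Helper68K9.TC

open Finset Pool.Agent.Helper62K9.TW Pool.Agent.Helper68K9.TS Pool.Agent.Helper68K9.TB

/-- the complement -/
def ng {m : ℕ} (σ : Fin m → Bool) : Fin m → Bool := fun i => !σ i

open Classical in
/-- one class -/
theorem class_card {W m t B : ℕ} (hW : 6 * m + B ≤ W) (ht : t < B) {Q : Type} [Fintype Q]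
    (P : TwoWay (Cells W) Q) (T M w o : ℕ) (hw : 0 < w) (ho : o < w)
    (hX : Fintype.card (Cells W) ≤ (M + 1) * w) (E : ℕ → Finset (ℕ × Q))
    (hsound : ∀ x : Cells W → Bool, size x ≤ 2 * m + 1 → P.Accepts T x → ¬ HasSol x)
    (hnear : (univ.filter fun i : Fin m =>
      Near hW ht (fun e => ((P.order e : Fin _) : ℕ)) w i).card ≤ m / 2) :
    (univ.filter fun σ : Fin m → Bool => Cls P T M (fun k => k * w + o) E
      (inp2 W m t σ (ng σ))).card ≤ 2 ^ (m / 2) := by
  set N := univ.filter fun i : Fin m =>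
      Near hW ht (fun e => ((P.order e : Fin _) : ℕ)) w i with hN
  set F := univ.filter fun σ : Fin m → Bool => Cls P T M (fun k => k * w + o) E
      (inp2 W m t σ (ng σ)) with hF
  obtain ⟨g, hg⟩ : ∃ g : Cells W → ℕ, g = fun e => seg M (fun k => k * w + o) (P.order e) :=
    ⟨_, rfl⟩
  have hclaim : ∀ i ∉ N, ∀ σ ∈ F, ∀ τ ∈ F, σ i = true → τ i = false → False := by
    intro i hi σ hσ τ hτ h1 h2
    have hfar : ¬ Near hW ht (fun e => ((P.order e : Fin _) : ℕ)) w i := by
      intro h
      exact hi (mem_filter.2 ⟨mem_univ _, h⟩)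
    have hne : g (cB W m t hW ht i) ≠ g (cA W m hW i) := by
      intro h
      apply hfar
      obtain ⟨k, hk⟩ : ∃ k, k = g (cA W m hW i) := ⟨_, rfl⟩
      have e1 := seg_near (M := M) hw ho (lt_of_lt_of_le (P.order (cA W m hW i)).2 hX)
        (k := k) (by rw [hk, hg])
      have e2 := seg_near (M := M) hw ho (lt_of_lt_of_le (P.order (cB W m t hW ht i)).2 hX)
        (k := k) (by rw [hk, ← h, hg])
      have h5 : (k + 1) * w ≤ (k - 1) * w + 2 * w := by
        rw [← Nat.add_mul]
        exact Nat.mul_le_mul_right _ (by omega)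
      unfold Near
      simp only
      omega
    have hy := Cls.mix (y := inp2 W m t
        (mix (fun j => decide (g (cA W m hW j) = g (cA W m hW i))) σ τ)
        (mix (fun j => decide (g (cB W m t hW ht j) = g (cA W m hW i))) (ng σ) (ng τ)))
      (mem_filter.1 hσ).2 (mem_filter.1 hτ).2 (g (cA W m hW i)) (by
        intro e
        have := inp2_mix hW ht σ (ng σ) τ (ng τ) (fun e => decide (g e = g (cA W m hW i))) e
        rw [this]
        simp only [decide_eq_true_eq, hg])
    obtain ⟨q, h, hr, -⟩ := hy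
    refine hsound _ (size2_le hW ht _ _) ⟨q, h, hr⟩ (inp2_yes hW ht _ _ i ?_ ?_)
    · simp [mix, h1]
    · simp [mix, hne, ng, h2]
  -- the members of `F` agree outside `N`
  have hinj : F.card ≤ (univ : Finset (N → Bool)).card := by
    refine card_le_card_of_injOn (fun σ i => σ i.1) (fun _ _ => mem_coe.2 (mem_univ _)) ?_
    intro σ hσ τ hτ h
    rw [mem_coe] at hσ hτ
    funext i
    by_cases hi : i ∈ N
    · exact congrFun h ⟨i, hi⟩
    · cases h1 : σ i <;> cases h2 : τ i
      · rfl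
      · exact (hclaim i hi τ hτ σ hσ h2 h1).elim
      · exact (hclaim i hi σ hσ τ hτ h1 h2).elim
      · rfl
  rw [card_univ, Fintype.card_fun, Fintype.card_bool, Fintype.card_coe] at hinj
  exact hinj.trans (Nat.pow_le_pow_right (by norm_num) hnear)

open Classical in
/-- one value of `t` -/
theorem one1 {W m t B : ℕ} (hW : 6 * m + B ≤ W) (ht : t < B) {Q : Type} [Fintype Q]
    (P : TwoWay (Cells W) Q) (T M w L : ℕ) (hw : 0 < w)
    (hX : Fintype.card (Cells W) ≤ (M + 1) * w) (hL : 2 * T < (L + 1) * w)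
    (hsound : ∀ x : Cells W → Bool, size x ≤ 2 * m + 1 → P.Accepts T x → ¬ HasSol x)
    (hnear : (univ.filter fun i : Fin m =>
      Near hW ht (fun e => ((P.order e : Fin _) : ℕ)) w i).card ≤ m / 2) :
    (univ.filter fun σ : Fin m → Bool => P.Accepts T (inp2 W m t σ (ng σ))).card ≤
      2 * ((M * (T * Fintype.card Q) + 1) ^ L * 2 ^ (m / 2)) := by
  obtain ⟨𝒰, h𝒰⟩ : ∃ 𝒰 : Finset (Finset (ℕ × (ℕ × Q))), 𝒰 =
    ((range M ×ˢ (range T ×ˢ (univ : Finset Q))).powerset.filter fun U => U.card ≤ L) := ⟨_, rfl⟩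
  have h𝒰c : 𝒰.card ≤ (M * (T * Fintype.card Q) + 1) ^ L := by
    have := card_small (range M ×ˢ (range T ×ˢ (univ : Finset Q))) L
    rwa [← h𝒰, card_product, card_product, card_range, card_range, card_univ] at this
  have hcls : ∀ x q h, P.Run T x q h → ∀ o, Cls P T M (fun k => k * w + o)
      (EU (evs T M w o q h)) x := by
    intro x q h hr o
    refine ⟨q, h, hr, fun k hk => ?_⟩
    ext p
    rw [mem_EU, mem_evs]
    exact ⟨fun h => ⟨hk, h⟩, fun h => h.2⟩
  have hU : ∀ q h o, (evs T M w o q h).card ≤ L → evs T M w o q h ∈ 𝒰 := by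
    intro q h o hc
    rw [h𝒰, mem_filter, mem_powerset]
    refine ⟨?_, hc⟩
    rintro ⟨k, p⟩ hp
    rw [mem_evs] at hp
    rw [mem_product, mem_product, mem_range, mem_range]
    exact ⟨hp.1, mem_events hp.2, mem_univ _⟩
  obtain ⟨Gd, hGd⟩ : ∃ Gd : ℕ → (Cells W → Bool) → Prop, Gd = fun o x =>
    ∃ q h, P.Run T x q h ∧ (evs T M w o q h).card ≤ L := ⟨_, rfl⟩
  have hGdc : ∀ x, P.Accepts T x → w ≤ 2 * ((range w).filter fun o => Gd o x).card := by
    rintro x ⟨q, h, hr⟩
    have h1 := sum_evs T M w hw q h fun t' ht' => P.local_step _ _ _ _ _ _ (hr.2.2.2 t' ht')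
    have h2 : ((range w).filter fun o => ¬ Gd o x).card * (L + 1) ≤ T := by
      calc ((range w).filter fun o => ¬ Gd o x).card * (L + 1)
          = ∑ _o ∈ (range w).filter fun o => ¬ Gd o x, (L + 1) := by rw [sum_const, smul_eq_mul]
        _ ≤ ∑ o ∈ (range w).filter fun o => ¬ Gd o x, (evs T M w o q h).card := by
            refine sum_le_sum fun o ho => ?_
            have h3 := (mem_filter.1 ho).2
            rw [hGd] at h3
            by_contra hcon
            exact h3 ⟨q, h, hr, by omega⟩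
        _ ≤ ∑ o ∈ range w, (evs T M w o q h).card :=
            sum_le_sum_of_subset (filter_subset _ _)
        _ ≤ T := h1
    have h3 := card_filter_add_card_filter_not (s := range w) (fun o => Gd o x)
    rw [card_range] at h3
    have h4 : 2 * ((range w).filter fun o => ¬ Gd o x).card ≤ w := by
      by_contra hcon
      push Not at hcon
      have h5 : (L + 1) * w ≤ (L + 1) * (2 * ((range w).filter fun o => ¬ Gd o x).card) :=
        Nat.mul_le_mul_left _ hcon.le
      nlinarith
    omega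
  have hone : ∀ o < w, (univ.filter fun σ : Fin m → Bool =>
      Gd o (inp2 W m t σ (ng σ))).card ≤ 𝒰.card * 2 ^ (m / 2) := by
    intro o ho
    have h3 : (univ.filter fun σ : Fin m → Bool => Gd o (inp2 W m t σ (ng σ))) ⊆
        𝒰.biUnion fun U => univ.filter fun σ : Fin m → Bool =>
          Cls P T M (fun k => k * w + o) (EU U) (inp2 W m t σ (ng σ)) := by
      intro z hz
      have h4 := (mem_filter.1 hz).2
      rw [hGd] at h4
      obtain ⟨q, h, hr, hc⟩ := h4
      exact mem_biUnion.2 ⟨_, hU q h o hc, mem_filter.2 ⟨mem_univ _, hcls _ q h hr o⟩⟩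
    refine (card_le_card h3).trans (card_biUnion_le.trans ?_)
    refine (sum_le_card_nsmul _ _ _ fun U _ =>
      class_card hW ht P T M w o hw ho hX (EU U) hsound hnear).trans (le_of_eq ?_)
    rw [smul_eq_mul]
  have hsum : w * (univ.filter fun σ : Fin m → Bool =>
      P.Accepts T (inp2 W m t σ (ng σ))).card ≤
      2 * ∑ o ∈ range w, (univ.filter fun σ : Fin m → Bool =>
        Gd o (inp2 W m t σ (ng σ))).card := by
    have h3 : ∑ o ∈ range w, (univ.filter fun σ : Fin m → Bool =>
        Gd o (inp2 W m t σ (ng σ))).card =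
        ∑ σ : Fin m → Bool, ((range w).filter fun o => Gd o (inp2 W m t σ (ng σ))).card := by
      simp only [card_filter]
      exact sum_comm
    rw [h3, mul_sum]
    calc w * (univ.filter fun σ : Fin m → Bool => P.Accepts T (inp2 W m t σ (ng σ))).card
        = ∑ _σ ∈ univ.filter fun σ : Fin m → Bool => P.Accepts T (inp2 W m t σ (ng σ)), w := by
          rw [sum_const, smul_eq_mul, mul_comm]
      _ ≤ ∑ σ ∈ univ.filter fun σ : Fin m → Bool => P.Accepts T (inp2 W m t σ (ng σ)),
          2 * ((range w).filter fun o => Gd o (inp2 W m t σ (ng σ))).card :=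
          sum_le_sum fun z hz => hGdc _ (mem_filter.1 hz).2
      _ ≤ _ := sum_le_sum_of_subset (subset_univ _)
  have hsum2 : ∑ o ∈ range w, (univ.filter fun σ : Fin m → Bool =>
        Gd o (inp2 W m t σ (ng σ))).card ≤ w * (𝒰.card * 2 ^ (m / 2)) := by
    refine (sum_le_card_nsmul _ _ _ fun o ho => hone o (mem_range.1 ho)).trans (le_of_eq ?_)
    rw [card_range, smul_eq_mul]
  have h1 : w * (univ.filter fun σ : Fin m → Bool =>
      P.Accepts T (inp2 W m t σ (ng σ))).card ≤ w * (2 * (𝒰.card * 2 ^ (m / 2))) := by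
    refine hsum.trans ((Nat.mul_le_mul_left 2 hsum2).trans (le_of_eq ?_))
    ring
  refine (Nat.le_of_mul_le_mul_left h1 hw).trans ?_
  exact Nat.mul_le_mul_left 2 (Nat.mul_le_mul_right _ h𝒰c)

open Classical in
/-- the finite form of the lower bound -/
theorem core1 {W m B : ℕ} (hm : 0 < m) (hB : 0 < B) (hW : 6 * m + B ≤ W) {ε : ℝ}
    {R : Type} [Fintype R] (p : R → ℝ) (Q : R → Type) [∀ r, Fintype (Q r)]
    (P : ∀ r, TwoWay (Cells W) (Q r)) (T M w s L : ℕ) (hw : 0 < w)
    (hX : Fintype.card (Cells W) ≤ (M + 1) * w) (hL : 2 * T < (L + 1) * w)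
    (hp : ∀ r, 0 ≤ p r) (hp1 : ∑ r, p r = 1) (hQ : ∀ r, Fintype.card (Q r) ≤ s)
    (hsound : ∀ r, ∀ x : Cells W → Bool, size x ≤ 2 * m + 1 → (P r).Accepts T x → ¬ HasSol x)
    (hcomp : ∀ x : Cells W → Bool, size x ≤ 2 * m + 1 → ¬ HasSol x →
      ε ≤ ∑ r, Set.indicator {r | (P r).Accepts T x} p r) :
    ε * 2 ^ m ≤ 2 * ((M * (T * s) + 1) ^ L * 2 ^ (m / 2)) + 8 * w / B * 2 ^ m := by
  obtain ⟨r, 𝓕, h𝓕, hcard⟩ := exists_many (J := Fin B × (Fin m → Bool))
    (fun r j => (P r).Accepts T (inp2 W m j.1 j.2 (ng j.2))) hp hp1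
    (fun j => hcomp _ (size2_le hW j.1.2 _ _) (inp2_no hm _ _ fun i h1 h2 => by
      simp only [ng] at h2
      rw [h1] at h2
      exact absurd h2 (by simp)))
  rw [Fintype.card_prod, Fintype.card_fun, Fintype.card_fin, Fintype.card_fin,
    Fintype.card_bool] at hcard
  set pos : Cells W → ℕ := fun e => (((P r).order e : Fin _) : ℕ) with hposdef
  have hpos : Function.Injective pos := fun e e' h => (P r).order.injective (Fin.ext h)
  set bad := univ.filter fun t : Fin B =>
      m / 2 < (univ.filter fun i : Fin m => Near hW t.2 pos w i).card with hbad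
  have hbadc : bad.card ≤ 8 * w := few_bad hm hW pos hpos w
  set G : Fin B → Finset (Fin m → Bool) := fun t => univ.filter fun σ => (t, σ) ∈ 𝓕 with hG
  have hsum : 𝓕.card = ∑ t : Fin B, (G t).card := by
    rw [card_eq_sum_card_fiberwise (f := Prod.fst) (t := univ) (fun _ _ => mem_coe.2 (mem_univ _))]
    refine sum_congr rfl fun t _ => ?_
    refine card_bij' (fun j _ => j.2) (fun σ _ => (t, σ)) ?_ ?_ ?_ ?_
    · intro j hj
      obtain ⟨h1, h2⟩ := mem_filter.1 hj
      refine mem_filter.2 ⟨mem_univ _, ?_⟩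
      rw [← h2]
      exact h1
    · intro σ hσ
      exact mem_filter.2 ⟨(mem_filter.1 hσ).2, rfl⟩
    · intro j hj
      obtain ⟨h1, h2⟩ := mem_filter.1 hj
      rw [← h2]
    · intro σ hσ
      rfl
  set Kr : ℝ := (M * (T * s) + 1) ^ L with hKr
  have hK0 : 0 ≤ Kr := by positivity
  have hB0 : (0 : ℝ) < B := by exact_mod_cast hB
  have hgood : ∀ t : Fin B, t ∉ bad → ((G t).card : ℝ) ≤ 2 * (Kr * 2 ^ (m / 2)) := by
    intro t htb
    have hnear : (univ.filter fun i : Fin m => Near hW t.2 pos w i).card ≤ m / 2 := by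
      by_contra hcon
      exact htb (mem_filter.2 ⟨mem_univ _, not_le.1 hcon⟩)
    have h1 := one1 hW t.2 (P r) T M w L hw hX hL (hsound r) hnear
    have h2 : (G t).card ≤ (univ.filter fun σ : Fin m → Bool =>
        (P r).Accepts T (inp2 W m t σ (ng σ))).card := by
      refine card_le_card fun σ hσ => ?_
      exact mem_filter.2 ⟨mem_univ _, (h𝓕 (t, σ)).1 (mem_filter.1 hσ).2⟩
    have h3 : ((G t).card : ℝ) ≤
        2 * (((M : ℝ) * (T * Fintype.card (Q r)) + 1) ^ L * 2 ^ (m / 2)) := by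
      exact_mod_cast h2.trans h1
    refine h3.trans (mul_le_mul_of_nonneg_left (mul_le_mul_of_nonneg_right ?_ (by positivity))
      (by norm_num))
    rw [hKr]
    refine pow_le_pow_left₀ (by positivity) ?_ _
    have h3 : (Fintype.card (Q r) : ℝ) ≤ s := by exact_mod_cast hQ r
    have h4 : (0 : ℝ) ≤ M * T := by positivity
    nlinarith [mul_le_mul_of_nonneg_left h3 h4]
  have hle : ∀ t : Fin B, ((G t).card : ℝ) ≤ 2 ^ m := by
    intro t
    have h3 : (G t).card ≤ 2 ^ m := by
      refine (card_filter_le _ _).trans (le_of_eq ?_)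
      rw [card_univ, Fintype.card_fun, Fintype.card_fin, Fintype.card_bool]
    exact_mod_cast h3
  have hpt : ∀ t ∈ (univ : Finset (Fin B)), ((G t).card : ℝ) ≤ 2 * (Kr * 2 ^ (m / 2)) +
      (if t ∈ bad then 2 ^ m else 0) := by
    intro t _
    by_cases htb : t ∈ bad
    · rw [if_pos htb]
      have : 0 ≤ 2 * (Kr * 2 ^ (m / 2)) := by positivity
      linarith [hle t]
    · rw [if_neg htb, add_zero]
      exact hgood t htb
  have hs := sum_le_sum hpt
  rw [sum_add_distrib, sum_const, card_univ, Fintype.card_fin, nsmul_eq_mul, ← sum_filter,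
    sum_const, nsmul_eq_mul] at hs
  have e1 : (univ.filter fun t => t ∈ bad) = bad := by
    ext t
    simp
  rw [e1] at hs
  have e2 : (bad.card : ℝ) * 2 ^ m ≤ 8 * w * 2 ^ m :=
    mul_le_mul_of_nonneg_right (by exact_mod_cast hbadc) (by positivity)
  have h5 : (𝓕.card : ℝ) = ∑ t : Fin B, ((G t).card : ℝ) := by
    rw [hsum]
    push_cast
    rfl
  push_cast at hcard
  rw [h5] at hcard
  have h6 : (B : ℝ) * (ε * 2 ^ m) ≤
      B * (2 * (Kr * 2 ^ (m / 2)) + 8 * w / B * 2 ^ m) := by
    have h7 : (B : ℝ) * (2 * (Kr * 2 ^ (m / 2)) + 8 * w / B * 2 ^ m) =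
        B * (2 * (Kr * 2 ^ (m / 2))) + 8 * w * 2 ^ m := by
      field_simp
    rw [h7]
    have h8 : ε * ((B : ℝ) * 2 ^ m) = B * (ε * 2 ^ m) := by ring
    rw [h8] at hcard
    linarith
  exact le_of_mul_le_mul_left h6 hB0

end Pool.Agent.Helper68K9.TC
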