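import Pool.Agent.Helper68K9.TC.Main
import Pool.Agent.Helper68K9.TC.OneS
import Pool.Agent.Helper68K9.TB.Upper

set_option autoImplicit false

/-!
# 3SUM: time times space, all `W ≥ 4 n`
-/

namespace Pool.Agent.Helper68K9.TC

open Finset Pool.Agent.Helper62K9.TW Pool.Agent.Helper68K9.TS Pool.Agent.Helper68K9.TB

/-- one-sided error -/
theorem lower1 (ε : ℝ) (hε : 0 < ε) : ∃ δ : ℝ, 0 < δ ∧ ∃ n₀ : ℕ,
    ∀ (n W T s : ℕ) (R : Type) [Fintype R] (p : R → ℝ) (Q : R → Type) [∀ r, Fintype (Q r)]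
      (P : ∀ r, TwoWay (Cells W) (Q r)),
      n₀ ≤ n → 4 * n ≤ W → (∀ r, 0 ≤ p r) → ∑ r, p r = 1 →
      (∀ r, Fintype.card (Q r) ≤ s) →
      (∀ r, ∀ x : Cells W → Bool, size x ≤ n → (P r).Accepts T x → ¬ HasSol x) →
      (∀ x : Cells W → Bool, size x ≤ n → ¬ HasSol x →
        ε ≤ ∑ r, Set.indicator {r | (P r).Accepts T x} p r) →
      δ * (n * W : ℝ) ≤ T * Real.logb 2 (T * s + 1) := by
  set e : ℝ := min ε 1 with he
  have he0 : 0 < e := lt_min hε one_pos
  have he1 : e ≤ 1 := min_le_right _ _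
  have heε : e ≤ ε := min_le_left _ _
  obtain ⟨M, hM⟩ : ∃ M : ℕ, M = ⌈384 / e⌉₊ := ⟨_, rfl⟩
  have hMle : 384 / e ≤ (M : ℝ) := by
    rw [hM]
    exact Nat.le_ceil _
  have hMpos : (0 : ℝ) < M := lt_of_lt_of_le (by positivity) hMle
  set N1 : ℕ := max ⌈32 / e⌉₊ ⌈4 * Real.logb 2 (4 / e)⌉₊ with hN1
  refine ⟨e / (3072 * M), by positivity, 2 * N1 + 8, ?_⟩
  intro n W T s R _ p Q _ P hn hW hp hp1 hQ hsound hcomp
  obtain ⟨m, hm⟩ : ∃ m, m = (n - 1) / 2 := ⟨_, rfl⟩
  obtain ⟨B, hB⟩ : ∃ B, B = W - 6 * m := ⟨_, rfl⟩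
  have hmn : 2 * m + 1 ≤ n := by omega
  have hnm : n ≤ 3 * m := by omega
  have hmN1 : N1 ≤ m := by omega
  have hm0 : 0 < m := by omega
  have hWB : 6 * m + B ≤ W := by omega
  have hBW : W ≤ 4 * B := by omega
  have hmB : m ≤ B := by omega
  have hB0 : 0 < B := by omega
  have hmpos : (0 : ℝ) < m := by exact_mod_cast hm0
  have hBpos : (0 : ℝ) < B := by exact_mod_cast hB0
  have hmB' : (m : ℝ) ≤ B := by exact_mod_cast hmB
  have hBW' : (W : ℝ) ≤ 4 * B := by exact_mod_cast hBW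
  have hm32 : 32 / e ≤ m := by
    have h1 : ⌈32 / e⌉₊ ≤ m := (le_max_left _ _).trans hmN1
    exact (Nat.le_ceil _).trans (by exact_mod_cast h1)
  have hmlog : 4 * Real.logb 2 (4 / e) ≤ m := by
    have h1 : ⌈4 * Real.logb 2 (4 / e)⌉₊ ≤ m := (le_max_right _ _).trans hmN1
    exact (Nat.le_ceil _).trans (by exact_mod_cast h1)
  have heB : 32 ≤ e * B := by
    rw [div_le_iff₀ he0] at hm32
    nlinarith
  obtain ⟨w, hw⟩ : ∃ w, w = ⌊e * B / 16⌋₊ := ⟨_, rfl⟩
  have hw1 : (w : ℝ) ≤ e * B / 16 := by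
    rw [hw]
    exact Nat.floor_le (by positivity)
  have hw2 : e * B / 32 ≤ w := by
    have h1 : e * B / 16 < w + 1 := by
      rw [hw]
      exact Nat.lt_floor_add_one _
    linarith
  have hwpos : (0 : ℝ) < w := lt_of_lt_of_le (by positivity) hw2
  have hw0 : 0 < w := by exact_mod_cast hwpos
  have hw3 : e * W / 128 ≤ w := by
    have : e * W ≤ e * (4 * B) := mul_le_mul_of_nonneg_left hBW' he0.le
    linarith
  have hX : Fintype.card (Cells W) ≤ (M + 1) * w := by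
    rw [card_cells]
    have h1 : (1 : ℝ) ≤ W := by
      have : 1 ≤ W := by omega
      exact_mod_cast this
    have h2 : (2 * W + 1 : ℝ) ≤ M * w := by
      calc (2 * W + 1 : ℝ) ≤ 3 * W := by linarith
        _ = 384 / e * (e * W / 128) := by field_simp; ring
        _ ≤ M * w := mul_le_mul hMle hw3 (by positivity) hMpos.le
    have h3 : ((2 * W + 1 : ℕ) : ℝ) ≤ ((M * w : ℕ) : ℝ) := by
      push_cast
      exact h2
    have h4 : 2 * W + 1 ≤ M * w := by exact_mod_cast h3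
    exact h4.trans (Nat.mul_le_mul_right _ (Nat.le_succ M))
  obtain ⟨L, hL⟩ : ∃ L, L = 2 * T / w := ⟨_, rfl⟩
  have hL1 : 2 * T < (L + 1) * w := by
    rw [hL, Nat.mul_comm (2 * T / w + 1) w]
    exact Nat.lt_mul_div_succ (2 * T) hw0
  have hcore := core1 hm0 hB0 hWB (ε := e) p Q P T M w s L hw0 hX hL1 hp hp1 hQ
    (fun r x hx => hsound r x (hx.trans hmn)) (fun x hx hs => heε.trans (hcomp x (hx.trans hmn) hs))
  set A : ℝ := (T : ℝ) * s + 1 with hA
  have hA1 : 1 ≤ A := by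
    have : (0 : ℝ) ≤ (T : ℝ) * s := by positivity
    linarith
  have hA0 : 0 < A := by linarith
  have hL0 : 0 ≤ Real.logb 2 A := Real.logb_nonneg (by norm_num) hA1
  have h2 : (M : ℝ) * (T * s) + 1 ≤ A ^ M := by
    have h3 := one_add_mul_le_pow (a := (T : ℝ) * s) (by
      have : (0 : ℝ) ≤ (T : ℝ) * s := by positivity
      linarith) M
    rw [hA, add_comm ((T : ℝ) * s) 1]
    linarith
  have h3 : ((M : ℝ) * (T * s) + 1) ^ L ≤ A ^ (M * L) := by
    rw [pow_mul]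
    exact pow_le_pow_left₀ (by positivity) h2 _
  have h4 : 8 * (w : ℝ) / B ≤ e / 2 := by
    rw [div_le_iff₀ hBpos]
    linarith
  have h5 : e / 4 * 2 ^ m ≤ A ^ (M * L) * 2 ^ (m / 2) := by
    have h6 : 8 * (w : ℝ) / B * 2 ^ m ≤ e / 2 * 2 ^ m :=
      mul_le_mul_of_nonneg_right h4 (by positivity)
    have h7 : ((M : ℝ) * (T * s) + 1) ^ L * 2 ^ (m / 2) ≤ A ^ (M * L) * 2 ^ (m / 2) :=
      mul_le_mul_of_nonneg_right h3 (by positivity)
    linarith
  have hlog := Real.logb_le_logb_of_le (b := 2) (by norm_num) (by positivity) h5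
  have hpow2 : ∀ k : ℕ, Real.logb 2 ((2 : ℝ) ^ k) = k := by
    intro k
    rw [Real.logb_pow, Real.logb_self_eq_one (by norm_num), mul_one]
  have hinv : Real.logb 2 (e / 4) = - Real.logb 2 (4 / e) := by
    rw [← Real.logb_inv, inv_div]
  rw [Real.logb_mul (by positivity) (by positivity), hinv, hpow2,
    Real.logb_mul (by positivity) (by positivity), hpow2, Real.logb_pow] at hlog
  have hm2 : ((m / 2 : ℕ) : ℝ) ≤ m / 2 := Nat.cast_div_le
  have h7 : (m : ℝ) / 4 ≤ (M * L : ℕ) * Real.logb 2 A := by linarith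
  have h8 : (L : ℝ) ≤ 2 * T / w := by
    rw [hL]
    have := Nat.cast_div_le (α := ℝ) (m := 2 * T) (n := w)
    push_cast at this
    exact this
  have h9 : (m : ℝ) / 4 * w ≤ M * (2 * (T * Real.logb 2 A)) := by
    have h10 : ((M * L : ℕ) : ℝ) * Real.logb 2 A ≤ M * (2 * T / w) * Real.logb 2 A := by
      push_cast
      exact mul_le_mul_of_nonneg_right (mul_le_mul_of_nonneg_left h8 hMpos.le) hL0
    have h11 := mul_le_mul_of_nonneg_right (h7.trans h10) hwpos.le
    refine h11.trans (le_of_eq ?_)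
    field_simp
  have h10 : (n : ℝ) ≤ 3 * m := by exact_mod_cast hnm
  have hW0 : (0 : ℝ) ≤ W := Nat.cast_nonneg W
  have h11 : e * (n * W : ℝ) ≤ 384 * (m * w) := by
    calc e * (n * W : ℝ) = n * (e * W) := by ring
      _ ≤ (3 * m) * (128 * w) := mul_le_mul h10 (by linarith) (by positivity) (by positivity)
      _ = 384 * (m * w) := by ring
  rw [div_mul_eq_mul_div, div_le_iff₀ (by positivity)]
  have h12 : (m : ℝ) * w ≤ 8 * M * (T * Real.logb 2 A) := by linarith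
  calc e * (n * W : ℝ) ≤ 384 * (m * w) := h11
    _ ≤ 384 * (8 * M * (T * Real.logb 2 A)) := by linarith
    _ = T * Real.logb 2 A * (3072 * M) := by ring

/-- two-sided error, unambiguous programs -/
theorem lower2 : ∃ δ : ℝ, 0 < δ ∧ ∃ n₀ : ℕ,
    ∀ (n W T s : ℕ) (R : Type) [Fintype R] (p : R → ℝ) (Q : R → Type) [∀ r, Fintype (Q r)]
      (P : ∀ r, TwoWay (Cells W) (Q r)),
      n₀ ≤ n → 4 * n ≤ W → (∀ r, 0 ≤ p r) → ∑ r, p r = 1 →
      (∀ r, Fintype.card (Q r) ≤ s) → (∀ r, Unambiguous (P r) T) →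
      (∀ x : Cells W → Bool, size x ≤ n → HasSol x →
        ∑ r, Set.indicator {r | (P r).Accepts T x} p r ≤ 1 / 200) →
      (∀ x : Cells W → Bool, size x ≤ n → ¬ HasSol x →
        1 - 1 / 200 ≤ ∑ r, Set.indicator {r | (P r).Accepts T x} p r) →
      δ * (n * W : ℝ) ≤ T * Real.logb 2 (T * s + 1) := by
  obtain ⟨M, hM⟩ : ∃ M : ℕ, M = 768 := ⟨_, rfl⟩
  have hMpos : (0 : ℝ) < M := by
    rw [hM]
    norm_num
  refine ⟨1 / (491520 * M), by positivity, 1000000, ?_⟩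
  intro n W T s R _ p Q _ P hn hW hp hp1 hQ huniq hyes hno
  obtain ⟨m, hm⟩ : ∃ m, m = (n - 1) / 2 := ⟨_, rfl⟩
  obtain ⟨B, hB⟩ : ∃ B, B = W - 6 * m := ⟨_, rfl⟩
  have hmn : 2 * m + 1 ≤ n := by omega
  have hnm : n ≤ 3 * m := by omega
  have hmL : 400000 ≤ m := by omega
  have hm0 : 0 < m := by omega
  have hWB : 6 * m + B ≤ W := by omega
  have hBW : W ≤ 4 * B := by omega
  have hB0 : 0 < B := by omega
  have hmpos : (0 : ℝ) < m := by exact_mod_cast hm0
  have hBpos : (0 : ℝ) < B := by exact_mod_cast hB0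
  have hmL' : (400000 : ℝ) ≤ m := by exact_mod_cast hmL
  obtain ⟨w, hw⟩ : ∃ w, w = B / 32 := ⟨_, rfl⟩
  have hw1 : 32 * w ≤ B := by omega
  have hw2 : W ≤ 256 * w := by omega
  have hw0 : 0 < w := by omega
  have hwpos : (0 : ℝ) < w := by exact_mod_cast hw0
  have hw1' : 32 * (w : ℝ) ≤ B := by exact_mod_cast hw1
  have hw2' : (W : ℝ) ≤ 256 * w := by exact_mod_cast hw2
  have hX : Fintype.card (Cells W) ≤ (M + 1) * w := by
    rw [card_cells, hM]
    omega
  obtain ⟨L, hL⟩ : ∃ L, L = 2 * T / w := ⟨_, rfl⟩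
  have hL1 : 2 * T < (L + 1) * w := by
    rw [hL, Nat.mul_comm (2 * T / w + 1) w]
    exact Nat.lt_mul_div_succ (2 * T) hw0
  have hcore := core hm0 hB0 hWB (ε := 1 / 200) p Q P T M w s L hw0 hX hL1 hp hp1 hQ huniq
    (fun x hx => hyes x (hx.trans hmn)) (fun x hx => hno x (hx.trans hmn))
  set A : ℝ := (T : ℝ) * s + 1 with hA
  have hA1 : 1 ≤ A := by
    have : (0 : ℝ) ≤ (T : ℝ) * s := by positivity
    linarith
  have hA0 : 0 < A := by linarith
  have hL0 : 0 ≤ Real.logb 2 A := Real.logb_nonneg (by norm_num) hA1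
  have h1 : (1 : ℝ) / 1250 ≤ (1 - 1 / 200) / 128 - 1 / 200 - w / (16 * B) := by
    have h2 : (w : ℝ) / (16 * B) ≤ 1 / 512 := by
      rw [div_le_div_iff₀ (by positivity) (by norm_num)]
      linarith
    have h3 : (1 : ℝ) / 1250 ≤ (1 - 1 / 200) / 128 - 1 / 200 - 1 / 512 := by norm_num
    linarith
  have h2 : (M : ℝ) * (T * s) + 1 ≤ A ^ M := by
    have h3 := one_add_mul_le_pow (a := (T : ℝ) * s) (by
      have : (0 : ℝ) ≤ (T : ℝ) * s := by positivity
      linarith) M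
    rw [hA, add_comm ((T : ℝ) * s) 1]
    linarith
  have h3 : (1 : ℝ) / 1250 ≤ (A ^ M) ^ L * Real.exp (-(m : ℝ) / 160) := by
    refine h1.trans (hcore.trans ?_)
    exact mul_le_mul_of_nonneg_right (pow_le_pow_left₀ (by positivity) h2 _) (Real.exp_pos _).le
  have h4 := Real.log_le_log (by norm_num) h3
  rw [Real.log_mul (by positivity) (Real.exp_pos _).ne', Real.log_exp, ← pow_mul, Real.log_pow,
    one_div, Real.log_inv] at h4
  have h5 : Real.log 1250 ≤ 1249 := by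
    have := Real.log_le_sub_one_of_pos (show (0 : ℝ) < 1250 by norm_num)
    linarith
  have h6 : Real.log A ≤ Real.logb 2 A := by
    rw [← Real.log_div_log]
    have h7 : 0 < Real.log 2 := Real.log_pos (by norm_num)
    have h8 : Real.log 2 ≤ 1 := by
      have := Real.log_two_lt_d9
      linarith
    rw [le_div_iff₀ h7]
    have h9 : 0 ≤ Real.log A := Real.log_nonneg hA1
    nlinarith
  have h7 : (m : ℝ) / 320 ≤ (M * L : ℕ) * Real.logb 2 A := by
    have h8 : ((M * L : ℕ) : ℝ) * Real.log A ≤ (M * L : ℕ) * Real.logb 2 A :=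
      mul_le_mul_of_nonneg_left h6 (Nat.cast_nonneg _)
    have h9 : (1249 : ℝ) ≤ m / 320 := by linarith
    have h10 : -(m : ℝ) / 160 = -(m / 320) - m / 320 := by ring
    rw [h10] at h4
    linarith
  have h8 : (L : ℝ) ≤ 2 * T / w := by
    rw [hL]
    have := Nat.cast_div_le (α := ℝ) (m := 2 * T) (n := w)
    push_cast at this
    exact this
  have h9 : (m : ℝ) / 320 * w ≤ M * (2 * (T * Real.logb 2 A)) := by
    have h10 : ((M * L : ℕ) : ℝ) * Real.logb 2 A ≤ M * (2 * T / w) * Real.logb 2 A := by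
      push_cast
      exact mul_le_mul_of_nonneg_right (mul_le_mul_of_nonneg_left h8 hMpos.le) hL0
    have h11 := mul_le_mul_of_nonneg_right (h7.trans h10) hwpos.le
    refine h11.trans (le_of_eq ?_)
    field_simp
  have h10 : (n : ℝ) ≤ 3 * m := by exact_mod_cast hnm
  have hW0 : (0 : ℝ) ≤ W := Nat.cast_nonneg W
  have h11 : (n * W : ℝ) ≤ 768 * (m * w) := by
    calc (n * W : ℝ) ≤ (3 * m) * (256 * w) := mul_le_mul h10 hw2' hW0 (by positivity)
      _ = 768 * (m * w) := by ring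
  rw [div_mul_eq_mul_div, one_mul, div_le_iff₀ (by positivity)]
  have h12 : (m : ℝ) * w ≤ 640 * M * (T * Real.logb 2 A) := by linarith
  calc (n * W : ℝ) ≤ 768 * (m * w) := h11
    _ ≤ 768 * (640 * M * (T * Real.logb 2 A)) := by linarith
    _ = T * Real.logb 2 A * (491520 * M) := by ring

/-- deterministic programs which decide whether there is a solution -/
theorem lower3 : ∃ δ : ℝ, 0 < δ ∧ ∃ n₀ : ℕ,
    ∀ (n W T s : ℕ) (R : Type) [Fintype R] (p : R → ℝ) (Q : R → Type) [∀ r, Fintype (Q r)]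
      (P : ∀ r, TwoWay (Cells W) (Q r)),
      n₀ ≤ n → 4 * n ≤ W → (∀ r, 0 ≤ p r) → ∑ r, p r = 1 →
      (∀ r, Fintype.card (Q r) ≤ s) → (∀ r, Deterministic (P r)) →
      (∀ x : Cells W → Bool, size x ≤ n →
        ∑ r, Set.indicator {r | ¬ ((P r).Accepts T x ↔ HasSol x)} p r ≤ 1 / 200) →
      δ * (n * W : ℝ) ≤ T * Real.logb 2 (T * s + 1) := by
  classical
  obtain ⟨δ, hδ, n₀, h⟩ := lower2
  refine ⟨δ, hδ, n₀, ?_⟩
  intro n W T s R _ p Q _ P hn hW hp hp1 hQ hdet herr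
  refine h n W T s R p Q (fun r => compl (P r)) hn hW hp hp1 hQ ?_ ?_ ?_
  · intro r
    exact det_unamb (compl (P r)) (hdet r) T
  · intro x hx hs
    refine le_trans (le_of_eq ?_) (herr x hx)
    refine sum_congr rfl fun r _ => ?_
    congr 1
    ext r
    simp only [Set.mem_ofPred_eq]
    rw [compl_accepts (P r) (hdet r)]
    tauto
  · intro x hx hs
    have h1 := herr x hx
    have h2 : ∑ r, Set.indicator {r | (compl (P r)).Accepts T x} p r +
        ∑ r, Set.indicator {r | ¬ ((P r).Accepts T x ↔ HasSol x)} p r = 1 := by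
      rw [← hp1, ← sum_add_distrib]
      refine sum_congr rfl fun r _ => ?_
      have h3 := compl_accepts (P r) (hdet r) T x
      simp only [Set.indicator_apply, Set.mem_ofPred_eq, h3]
      by_cases h4 : (P r).Accepts T x
      · simp [h4, hs]
      · simp [h4, hs]
    linarith

end Pool.Agent.Helper68K9.TC
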