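import Pool.Agent.Helper68K9.TC.Final

set_option autoImplicit false

/-!
# 3SUM: a deterministic program for sparse sets
-/

namespace Pool.Agent.Helper68K9.TC

open Finset Pool.Agent.Helper62K9.TW Pool.Agent.Helper68K9.TS Pool.Agent.Helper68K9.TB

open Classical in
/-- the next state -/
noncomputable def nxt {W n : ℕ} (o : Cells W ≃ Fin (Fintype.card (Cells W)))
    (q : Option {A : Finset (Cells W) // A.card ≤ n}) (j : ℕ) (b : Bool) :
    Option {A : Finset (Cells W) // A.card ≤ n} :=
  match q with
  | none => none
  | some A => if h : j < Fintype.card (Cells W) then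
      (if b = true then
        (if hc : (insert (o.symm ⟨j, h⟩) A.1).card ≤ n then some ⟨_, hc⟩ else none)
      else some A) else some A

open Classical in
/-- the program that stores the elements of the set -/
noncomputable def storeN (W n : ℕ) (o : Cells W ≃ Fin (Fintype.card (Cells W))) :
    TwoWay (Cells W) (Option {A : Finset (Cells W) // A.card ≤ n}) where
  order := o
  start := some ⟨∅, by simp⟩
  step _ q j b q' j' := q' = nxt o q j b ∧ j' = j + 1
  local_step := by
    rintro t q j b q' j' ⟨-, h⟩
    omega
  final q := ∃ A, q = some A ∧ ¬ HasSol (fun v => decide (v ∈ A.1))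

theorem upper3 (W n : ℕ) (o : Cells W ≃ Fin (Fintype.card (Cells W))) :
    ∃ (Q : Type) (_ : Fintype Q) (P : TwoWay (Cells W) Q),
      Fintype.card Q ≤ (2 * W + 2) ^ n + 1 ∧ P.order = o ∧ Deterministic P ∧
      (∀ t q j b q' j', P.step t q j b q' j' → j' = j + 1) ∧
      ∀ x : Cells W → Bool, size x ≤ n → (P.Accepts (2 * W + 1) x ↔ ¬ HasSol x) := by
  classical
  refine ⟨Option {A : Finset (Cells W) // A.card ≤ n}, inferInstance, storeN W n o, ?_, rfl, ?_,
    fun t q j b q' j' h => h.2, ?_⟩
  · rw [Fintype.card_option, Fintype.card_subtype]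
    have h1 := card_small (univ : Finset (Cells W)) n
    rw [card_univ, card_cells] at h1
    have h2 : (univ.filter fun A : Finset (Cells W) => A.card ≤ n) =
        ((univ : Finset (Cells W)).powerset.filter fun E => E.card ≤ n) := by
      rw [powerset_univ]
    rw [h2]
    exact Nat.add_le_add_right h1 1
  · intro t q j b
    exact ⟨_, _, fun q'' j'' => Iff.rfl⟩
  · intro x hx
    have hN := card_cells W
    rw [← hN]
    have hcard : ∀ t, (univ.filter fun v : Cells W => x v = true ∧ (o v : ℕ) < t).card ≤ n := by
      intro t
      refine (card_le_card fun v hv => ?_).trans hx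
      exact mem_filter.2 ⟨mem_univ _, (mem_filter.1 hv).2.1⟩
    obtain ⟨c, hc⟩ : ∃ c : ℕ → Option {A : Finset (Cells W) // A.card ≤ n},
        c = fun t => some ⟨univ.filter fun v : Cells W => x v = true ∧ (o v : ℕ) < t, hcard t⟩ :=
      ⟨_, rfl⟩
    have hstep : ∀ t (ht : t < Fintype.card (Cells W)),
        c (t + 1) = nxt o (c t) t ((storeN W n o).bit x t) := by
      intro t ht
      have hbit : (storeN W n o).bit x t = x (o.symm ⟨t, ht⟩) := by
        unfold TwoWay.bit
        rw [dif_pos ht]
        rfl
      rw [hbit, hc]
      unfold nxt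
      simp only
      rw [dif_pos ht]
      have hv0 : ∀ v : Cells W, (o v : ℕ) = t ↔ v = o.symm ⟨t, ht⟩ := by
        intro v
        rw [Equiv.eq_symm_apply]
        exact ⟨fun h => Fin.ext h, fun h => congrArg Fin.val h⟩
      by_cases hb : x (o.symm ⟨t, ht⟩) = true
      · rw [if_pos hb]
        have hins : insert (o.symm ⟨t, ht⟩)
            (univ.filter fun v : Cells W => x v = true ∧ (o v : ℕ) < t) =
            univ.filter fun v : Cells W => x v = true ∧ (o v : ℕ) < t + 1 := by
          ext v
          simp only [mem_insert, mem_filter, mem_univ, true_and]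
          constructor
          · rintro (h | ⟨h1, h2⟩)
            · rw [h]
              refine ⟨hb, ?_⟩
              simp
            · exact ⟨h1, by omega⟩
          · rintro ⟨h1, h2⟩
            by_cases h3 : (o v : ℕ) = t
            · exact Or.inl ((hv0 v).1 h3)
            · exact Or.inr ⟨h1, by omega⟩
        rw [dif_pos (by rw [hins]; exact hcard _)]
        congr 1
        exact Subtype.ext hins.symm
      · rw [if_neg hb]
        congr 1
        refine Subtype.ext ?_
        simp only
        refine filter_congr fun v _ => ?_
        constructor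
        · rintro ⟨h1, h2⟩
          refine ⟨h1, ?_⟩
          by_contra h3
          have h4 : (o v : ℕ) = t := by omega
          rw [(hv0 v).1 h4] at h1
          exact hb h1
        · rintro ⟨h1, h2⟩
          exact ⟨h1, by omega⟩
    have hlast : (fun v => decide (v ∈ (univ.filter fun v : Cells W =>
        x v = true ∧ (o v : ℕ) < Fintype.card (Cells W)))) = x := by
      funext v
      rw [Bool.eq_iff_iff, decide_eq_true_eq, mem_filter]
      exact ⟨fun h => h.2.1, fun h => ⟨mem_univ _, h, (o v).2⟩⟩
    have hfirst : c 0 = (storeN W n o).start := by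
      rw [hc]
      unfold storeN
      simp
    have hclast : (storeN W n o).final (c (Fintype.card (Cells W))) ↔ ¬ HasSol x := by
      rw [hc]
      constructor
      · rintro ⟨A, h1, h2⟩
        rw [Option.some.injEq] at h1
        rw [← h1] at h2
        simp only at h2
        rwa [hlast] at h2
      · intro h
        refine ⟨_, rfl, ?_⟩
        simp only
        rwa [hlast]
    constructor
    · rintro ⟨q, h, h1, h2, h3, h4⟩
      have hall : ∀ t ≤ Fintype.card (Cells W), h t = t ∧ q t = c t := by
        intro t
        induction t with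
        | zero => exact fun _ => ⟨h2, h1.trans hfirst.symm⟩
        | succ t ih =>
          intro ht
          obtain ⟨e1, e2⟩ := ih (by omega)
          obtain ⟨f1, f2⟩ := h4 t (by omega)
          rw [e1, e2] at f1
          rw [e1] at f2
          exact ⟨f2, f1.trans (hstep t (by omega)).symm⟩
      have h5 := (hall _ le_rfl).2
      rw [h5] at h3
      exact hclast.1 h3
    · intro hx
      exact ⟨c, fun t => t, hfirst, rfl, hclast.2 hx, fun t ht => ⟨hstep t ht, rfl⟩⟩

end Pool.Agent.Helper68K9.TC
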